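import Mathlib

set_option autoImplicit false

namespace Pool.Agent.Results.MP_af8792_co.Unbounded

/-- A configuration on the grid with m rows and n columns: a set of 1-edges (cells) and a set of
2-edges, the 2-edge (i,j;k,l) being recorded as the pair of cells ((i,j),(k,l)). -/
structure Config (m n : ℕ) where
  E1 : Finset (Fin m × Fin n)
  E2 : Finset ((Fin m × Fin n) × (Fin m × Fin n))
  nondeg : ∀ e ∈ E2, e.1.1 ≠ e.2.1 ∧ e.1.2 ≠ e.2.2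
  disj12 : ∀ e ∈ E2, e.1 ∉ E1 ∧ e.2 ∉ E1
  disj22 : ∀ e ∈ E2, ∀ e' ∈ E2, e ≠ e' → e.1 ≠ e'.1 ∧ e.1 ≠ e'.2 ∧ e.2 ≠ e'.1 ∧ e.2 ≠ e'.2

/-- A cell is occupied if it is a 1-edge or one of the two cells of a 2-edge. -/
def Config.Occ {m n : ℕ} (G : Config m n) (c : Fin m × Fin n) : Prop :=
  c ∈ G.E1 ∨ ∃ e ∈ G.E2, c = e.1 ∨ c = e.2

/-- The three kinds of generalized 4-cycle. -/
def Config.HasGenC4 {m n : ℕ} (G : Config m n) : Prop :=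
  (∃ i k j l, i ≠ k ∧ j ≠ l ∧ (i, j) ∈ G.E1 ∧ (i, l) ∈ G.E1 ∧ (k, j) ∈ G.E1 ∧ (k, l) ∈ G.E1) ∨
  (∃ i j k l, ((i, j), (k, l)) ∈ G.E2 ∧ G.Occ (i, l) ∧ G.Occ (k, j)) ∨
  (∃ i j p q k l, ((i, j), (p, q)) ∈ G.E2 ∧
    [(k, l), (k, j), (k, q), (i, l), (p, l)].Nodup ∧
    G.Occ (k, l) ∧ G.Occ (k, j) ∧ G.Occ (k, q) ∧ G.Occ (i, l) ∧ G.Occ (p, l))

/-- The double Zarankiewicz number. -/
noncomputable def z2 (m n : ℕ) : ℕ :=
  sSup {t | ∃ G : Config m n, ¬ G.HasGenC4 ∧ G.E1.card + G.E2.card = t}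

def emb (m n : ℕ) (x : Fin (m / 2) × Fin (n / 2)) : (Fin m × Fin n) × (Fin m × Fin n) :=
  ((⟨x.1.1, by omega⟩, ⟨x.2.1, by omega⟩), (⟨x.1.1 + m / 2, by omega⟩, ⟨x.2.1 + n / 2, by omega⟩))

lemma emb_inj (m n : ℕ) : Function.Injective (emb m n) := by
  rintro ⟨a, b⟩ ⟨c, d⟩ h
  simp only [emb, Prod.mk.injEq, Fin.mk.injEq] at h
  ext <;> simp <;> omega

def quad (m n : ℕ) : Config m n where
  E1 := ∅
  E2 := Finset.univ.image (emb m n)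
  nondeg := by
    intro e he
    obtain ⟨⟨a, b⟩, -, rfl⟩ := Finset.mem_image.1 he
    simp only [emb, ne_eq, Fin.mk.injEq]
    omega
  disj12 := by simp
  disj22 := by
    intro e he e' he' hne
    obtain ⟨⟨a, b⟩, -, rfl⟩ := Finset.mem_image.1 he
    obtain ⟨⟨c, d⟩, -, rfl⟩ := Finset.mem_image.1 he'
    have : ¬ (a.1 = c.1 ∧ b.1 = d.1) := by
      rintro ⟨h1, h2⟩
      exact hne (by rw [Fin.ext h1, Fin.ext h2])
    simp only [emb, ne_eq, Prod.mk.injEq, Fin.mk.injEq]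
    omega

lemma occ_quad {m n : ℕ} (i : Fin m) (j : Fin n) (h : (quad m n).Occ (i, j)) :
    (i.1 < m / 2 ↔ j.1 < n / 2) := by
  rcases h with h | ⟨e, he, h⟩
  · simp [quad] at h
  · obtain ⟨⟨a, b⟩, -, rfl⟩ := Finset.mem_image.1 he
    simp only [emb, Prod.mk.injEq, Fin.ext_iff] at h
    omega

lemma mem_quad {m n : ℕ} (i p : Fin m) (j q : Fin n) (h : ((i, j), (p, q)) ∈ (quad m n).E2) :
    i.1 < m / 2 ∧ j.1 < n / 2 ∧ ¬ p.1 < m / 2 ∧ ¬ q.1 < n / 2 := by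
  obtain ⟨⟨a, b⟩, -, h⟩ := Finset.mem_image.1 h
  simp only [emb, Prod.mk.injEq, Fin.ext_iff] at h
  omega

lemma quad_free (m n : ℕ) : ¬ (quad m n).HasGenC4 := by
  rintro (⟨i, k, j, l, -, -, h, -⟩ | ⟨i, j, k, l, h, h1, h2⟩ | ⟨i, j, p, q, k, l, h, -, -, h1, h2, -⟩)
  · simp [quad] at h
  · have := mem_quad _ _ _ _ h
    have := occ_quad _ _ h1
    tauto
  · have := mem_quad _ _ _ _ h
    have := occ_quad _ _ h1
    have := occ_quad _ _ h2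
    tauto

lemma lower (m n : ℕ) : (m / 2) * (n / 2) ≤ z2 m n := by
  apply le_csSup
  · refine ⟨m * n + (m * n) * (m * n), ?_⟩
    rintro t ⟨G, -, rfl⟩
    have h1 := Finset.card_le_univ G.E1
    have h2 := Finset.card_le_univ G.E2
    simp only [Fintype.card_prod, Fintype.card_fin] at h1 h2
    omega
  · refine ⟨quad m n, quad_free m n, ?_⟩
    simp [quad, Finset.card_image_of_injective _ (emb_inj m n)]

theorem result :
    ¬ ∃ C : ℝ, ∀ m n : ℕ, 2 ≤ m → 2 ≤ n → (z2 m n : ℝ) ≤ C * (m * Real.sqrt n + n) := by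
  rintro ⟨C, hC⟩
  obtain ⟨t, ht⟩ := exists_nat_gt (max (4 * C) 1)
  have ht1 : (1 : ℝ) < t := lt_of_le_of_lt (le_max_right _ _) ht
  have ht2 : 4 * C < t := lt_of_le_of_lt (le_max_left _ _) ht
  have ht3 : 1 < t := by exact_mod_cast ht1
  have h := hC (4 * t ^ 2) (4 * t ^ 2) (by nlinarith) (by nlinarith)
  have hl := lower (4 * t ^ 2) (4 * t ^ 2)
  have e : 4 * t ^ 2 / 2 = 2 * t ^ 2 := by omega
  rw [e] at hl
  have hl' : ((2 * t ^ 2 * (2 * t ^ 2) : ℕ) : ℝ) ≤ z2 (4 * t ^ 2) (4 * t ^ 2) := by exact_mod_cast hl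
  have hs : Real.sqrt ((4 * t ^ 2 : ℕ) : ℝ) = 2 * t := by
    rw [show ((4 * t ^ 2 : ℕ) : ℝ) = (2 * t) ^ 2 by push_cast; ring]
    exact Real.sqrt_sq (by positivity)
  rw [hs] at h
  push_cast at h hl'
  have h2 : (0 : ℝ) < (t : ℝ) ^ 2 := by positivity
  have h3 : 4 * (t : ℝ) ^ 2 * (t : ℝ) ^ 2 ≤ C * (4 * t ^ 2 * (2 * t + 1)) := by nlinarith
  have h4 : (t : ℝ) ^ 2 ≤ C * (2 * t + 1) := by
    by_contra hh
    push Not at hh
    nlinarith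
  nlinarith

end Pool.Agent.Results.MP_af8792_co.Unbounded
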